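import Pool.Agent.Lib.MP_19cc1b_al.Defs
import Pool.Agent.Lib.MP_19cc1b_al.Groups

open scoped Pointwise
open Pool.Agent.Lib.MP_19cc1b_al

namespace Pool.Agent.Results.MP_19cc1b_al.Counterexample

/-- For every `n ≥ 3` there is a finite group `G = G₁ ⋯ Gₙ`, the `Gᵢ` pairwise permutable, that has
a Schmidt `(p,q)`-subgroup while no `Gᵢ Gⱼ` with `i < j` contains one.  The example is the affine
group `AGL(3,2)` of order 1344 with `(p,q) = (2,7)`. -/
theorem result (n : ℕ) (hn : 3 ≤ n) :
    ∃ (G : Type) (_ : Group G) (_ : Finite G) (H : Fin n → Subgroup G),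
      (∀ i j, (H i : Set G) * (H j : Set G) = (H j : Set G) * (H i : Set G)) ∧
      (∀ g : G, ∃ x : Fin n → G, (∀ i, x i ∈ H i) ∧ g = (List.ofFn x).prod) ∧
      ∃ p q : ℕ, p.Prime ∧ q.Prime ∧ (∃ S : Subgroup G, IsSchmidtPQ p q S) ∧
        ∀ i j, i < j → ¬ ∃ S : Subgroup G,
          (S : Set G) ⊆ (H i : Set G) * (H j : Set G) ∧ IsSchmidtPQ p q S := by
  obtain ⟨m, rfl⟩ : ∃ m, n = m + 3 := ⟨n - 3, by omega⟩
  let K : Fin (m + 3) → Subgroup Om := fun i =>
    if i.val = 0 then gA else if i.val = 1 then gB else if i.val = 2 then gC else ⊥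
  have hKle : ∀ i, K i ≤ gG := by
    intro i
    simp only [K]
    split_ifs
    exacts [gA_le, gB_le, gC_le, bot_le]
  have hswap : ∀ i j, ∀ a ∈ K i, ∀ b ∈ K j, ∃ b' ∈ K j, ∃ a' ∈ K i, a * b = b' * a' := by
    intro i j a ha b hb
    have hsame : ∀ L : Subgroup Om, a ∈ L → b ∈ L → ∃ b' ∈ L, ∃ a' ∈ L, a * b = b' * a' :=
      fun L h1 h2 => ⟨a, h1, b, h2, rfl⟩
    have hbotl : ∀ L : Subgroup Om, a ∈ (⊥ : Subgroup Om) → b ∈ L →
        ∃ b' ∈ L, ∃ a' ∈ (⊥ : Subgroup Om), a * b = b' * a' :=
      fun L h1 h2 => ⟨b, h2, a, h1, by rw [Subgroup.mem_bot.mp h1]; simp⟩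
    have hbotr : ∀ L : Subgroup Om, a ∈ L → b ∈ (⊥ : Subgroup Om) →
        ∃ b' ∈ (⊥ : Subgroup Om), ∃ a' ∈ L, a * b = b' * a' :=
      fun L h1 h2 => ⟨b, h2, a, h1, by rw [Subgroup.mem_bot.mp h2]; simp⟩
    simp only [K] at ha hb ⊢
    split_ifs at ha hb ⊢
    all_goals first
      | exact hsame _ ha hb
      | exact hbotr _ ha hb
      | exact hbotl _ ha hb
      | exact sAB ha hb
      | exact sAC ha hb
      | exact sBC ha hb
      | exact sBA ha hb
      | exact sCA ha hb
      | exact sCB ha hb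
  have hsub : ∀ i j, ((K i).subgroupOf gG : Set gG) * ((K j).subgroupOf gG : Set gG) ⊆
      ((K j).subgroupOf gG : Set gG) * ((K i).subgroupOf gG : Set gG) := by
    rintro i j _ ⟨a, ha, b, hb, rfl⟩
    obtain ⟨b', hb', a', ha', h⟩ := hswap i j a ha b hb
    exact ⟨⟨b', hKle j hb'⟩, hb', ⟨a', hKle i ha'⟩, ha', Subtype.ext h.symm⟩
  refine ⟨gG, inferInstance, inferInstance, fun i => (K i).subgroupOf gG,
    fun i j => Set.Subset.antisymm (hsub i j) (hsub j i), ?_, 2, 7, by norm_num, by norm_num,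
    ⟨gS.subgroupOf gG, ?_⟩, ?_⟩
  · rintro ⟨g, a, ha, b, hb, c, hc, rfl⟩
    refine ⟨Fin.cons ⟨a, gA_le ha⟩ (Fin.cons ⟨b, gB_le hb⟩ (Fin.cons ⟨c, gC_le hc⟩ fun _ => 1)),
      ?_, ?_⟩
    · intro i
      refine Fin.cases ?_ (fun i => Fin.cases ?_ (fun i => Fin.cases ?_ (fun i => ?_) i) i) i
      · exact ha
      · exact hb
      · exact hc
      · exact one_mem _
    · apply Subtype.ext
      simp [List.ofFn_succ, mul_assoc]
  · refine is_schmidt _ (gG.subtype.comp (gS.subgroupOf gG).subtype)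
      (Subtype.val_injective.comp Subtype.val_injective) (fun x => x.2) ?_
    intro c hc
    obtain ⟨s, rfl⟩ := (closedc_spec closed_S).2.1 c hc
    exact ⟨⟨⟨s, gS_le hc⟩, hc⟩, rfl⟩
  · rintro i j hij ⟨S, hS, hSch⟩
    have key : ∀ (l l' : List ℕ) (hl : closedc l = true) (hl' : closedc l' = true),
        noSchc (prodc l l') = true → K i ≤ sub l hl → K j ≤ sub l' hl' → False := by
      intro l l' hl hl' hno h1 h2
      refine no_schmidt hno S (gG.subtype.comp S.subtype)
        (Subtype.val_injective.comp Subtype.val_injective) ?_ hSch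
      intro x
      obtain ⟨a, ha, b, hb, hab⟩ := hS x.2
      refine mem_prodc.mpr ⟨code a.1, h1 ha, code b.1, h2 hb, ?_⟩
      rw [← code_mul]
      exact congrArg (fun y : gG => code y.1) hab
    have key' : ∀ (l l' : List ℕ) (hl : closedc l = true) (hl' : closedc l' = true),
        noSchc (prodc l l') = true → K i ≤ sub l' hl' → K j = ⊥ → False := by
      intro l l' hl hl' hno h1 h2
      refine no_schmidt hno S (gG.subtype.comp S.subtype)
        (Subtype.val_injective.comp Subtype.val_injective) ?_ hSch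
      intro x
      obtain ⟨a, ha, b, hb, hab⟩ := hS x.2
      have hb1 : (b : Om) = 1 := by
        have : (b : Om) ∈ K j := hb
        rwa [h2, Subgroup.mem_bot] at this
      refine mem_prodc.mpr ⟨code 1, (sub l hl).one_mem, code a.1, h1 ha, ?_⟩
      rw [← code_mul, one_mul, ← mul_one (a : Om), ← hb1]
      exact congrArg (fun y : gG => code y.1) hab
    have hij' : i.val < j.val := hij
    by_cases hi0 : i.val = 0
    · have hKi : K i = gA := by simp only [K, if_pos hi0]
      by_cases hj1 : j.val = 1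
      · have hj0 : j.val ≠ 0 := by omega
        have hKj : K j = gB := by simp only [K, if_neg hj0, if_pos hj1]
        exact key lA lB closed_A closed_B noSch_AB hKi.le hKj.le
      · refine key lA lC closed_A closed_C noSch_AC hKi.le ?_
        have : j.val ≠ 0 := by omega
        simp only [K, if_neg this, if_neg hj1]
        split_ifs
        exacts [le_rfl, bot_le]
    by_cases hi1 : i.val = 1
    · have hKi : K i = gB := by simp only [K, if_neg hi0, if_pos hi1]
      refine key lB lC closed_B closed_C noSch_BC hKi.le ?_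
      have h0 : j.val ≠ 0 := by omega
      have h1 : j.val ≠ 1 := by omega
      simp only [K, if_neg h0, if_neg h1]
      split_ifs
      exacts [le_rfl, bot_le]
    · refine key' lB lC closed_B closed_C noSch_BC ?_ ?_
      · simp only [K, if_neg hi0, if_neg hi1]
        split_ifs
        exacts [le_rfl, bot_le]
      · have h0 : j.val ≠ 0 := by omega
        have h1 : j.val ≠ 1 := by omega
        have h2 : j.val ≠ 2 := by omega
        simp only [K, if_neg h0, if_neg h1, if_neg h2]

end Pool.Agent.Results.MP_19cc1b_al.Counterexample
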