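import Pool.Agent.Lib.MP_19cc1b_al.Defs
import Pool.Agent.Lib.MP_19cc1b_al.KE.Cyc

open scoped Pointwise
open Pool.Agent.Lib.MP_19cc1b_al Pool.Agent.Lib.MP_19cc1b_al.KE

namespace Pool.Agent.Results.MP_19cc1b_al.CyclicSylow

/-- Let the finite group `G` be a product of pairwise permutable subgroups and let `(p,q)` be an
edge of its critical graph.  If the Sylow `p`-subgroups of `G` are cyclic, then `(p,q)` is an edge
of a product of two factors. -/
theorem result (n : ℕ) (hn : 2 ≤ n) (G : Type) [Group G] [Finite G] (H : Fin n → Subgroup G)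
    (hperm : ∀ i j, (H i : Set G) * (H j : Set G) = (H j : Set G) * (H i : Set G))
    (hprod : ∀ g : G, ∃ x : Fin n → G, (∀ i, x i ∈ H i) ∧ g = (List.ofFn x).prod)
    (p q : ℕ) (hp : p.Prime) (hq : q.Prime) (hedge : ∃ S : Subgroup G, IsSchmidtPQ p q S)
    (h : ∀ P : Sylow p G, IsCyclic P) :
    ∃ i j, i < j ∧ ∃ S : Subgroup G,
      (S : Set G) ⊆ (H i : Set G) * (H j : Set G) ∧ IsSchmidtPQ p q S := by
  have := Fact.mk hp
  have := Fact.mk hq
  obtain ⟨S, hS⟩ := hedge
  obtain ⟨hne, hF⟩ := act_of_schmidt hS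
  by_contra hno
  have htop : Finset.univ.sup H = ⊤ := by
    refine eq_top_iff.2 fun g _ => ?_
    obtain ⟨x, hx, rfl⟩ := hprod g
    refine Subgroup.list_prod_mem _ fun y hy => ?_
    obtain ⟨i, rfl⟩ := List.mem_ofFn.1 hy
    exact Finset.le_sup (f := H) (Finset.mem_univ i) (hx i)
  have lt : ∀ i j, i < j → FrIn p q (H i ⊔ H j) := by
    intro i j hij
    by_contra hc
    obtain ⟨T, hT, hT'⟩ := schmidt_of_act hne hc
    refine hno ⟨i, j, hij, T, ?_, hT'⟩
    rw [← Pm.coe_sup (hperm i j)]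
    exact hT
  have ne : ∀ i j, i ≠ j → FrIn p q (H i ⊔ H j) := fun i j hij =>
    (lt_or_gt_of_ne hij).elim (lt i j) fun h' => sup_comm (H j) (H i) ▸ lt j i h'
  refine hF (frIn_of_cyc hne h hperm htop fun i j => ?_)
  by_cases hij : i = j
  · have : Nontrivial (Fin n) := Fin.nontrivial_iff_two_le.2 hn
    obtain ⟨k, hk⟩ := exists_ne i
    exact (ne i k hk.symm).mono (hij ▸ sup_le le_sup_left le_sup_left)
  · exact ne i j hij

end Pool.Agent.Results.MP_19cc1b_al.CyclicSylow
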